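import Pool.Agent.helper70.QSD.SpecC

/-!
# Project qsd (MP_7a3aac_co), module BKX: extension at the other side
-/

set_option linter.unusedVariables false

namespace Pool.Agent.helper70.QSD

open Pool.Agent.helper53.AU
open scoped Classical IntermediateField Polynomial
open Filter (Tendsto atTop)

theorem BKX (hINV : INV_stmt) (hEXT : EXT_stmt) : BKX_stmt := by
  intro N N' Φ Φ' hN hN' tN tN' A f hP y' hy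
  obtain ⟨A', g, hP', h1, h2⟩ := hINV Φ Φ' A f hP
  obtain ⟨A'₁, g₁, hA', hP'₁, hy', h3⟩ := hEXT N' N Φ' Φ hN' hN tN' tN A' g hP' y' hy
  obtain ⟨A₁, f₁, hP₁, h4, h5⟩ := hINV Φ' Φ A'₁ g₁ hP'₁
  have key : ∀ (x : KS) (hx : x ∈ A), ∃ hx₁ : x ∈ A₁, f₁ ⟨x, hx₁⟩ = f ⟨x, hx⟩ := by
    intro x hx
    obtain ⟨hfx, hgx⟩ := h1 ⟨x, hx⟩
    obtain ⟨hx₁, h6⟩ := h4 ⟨f ⟨x, hx⟩, hA' hfx⟩
    have e : g₁ ⟨f ⟨x, hx⟩, hA' hfx⟩ = x := by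
      rw [h3 (f ⟨x, hx⟩) hfx, hgx]
    have hmem : x ∈ A₁ := by
      rw [← e]; exact hx₁
    refine ⟨hmem, ?_⟩
    have e2 : (⟨x, hmem⟩ : A₁) = ⟨g₁ ⟨f ⟨x, hx⟩, hA' hfx⟩, hx₁⟩ := Subtype.ext e.symm
    rw [e2]
    exact h6
  have hA : A ≤ A₁ := fun x hx => (key x hx).1
  refine ⟨A₁, f₁, hA, hP₁, fun x hx => ?_, ?_⟩
  · obtain ⟨hx₁, h6⟩ := key x hx
    exact h6
  · obtain ⟨hx, h6⟩ := h4 ⟨y', hy'⟩
    refine ⟨⟨g₁ ⟨y', hy'⟩, hx⟩, h6, ?_⟩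
    have hy2 : Φ' y' ∈ A'₁ := by rw [hy]; exact hy'
    have h7 := hP'₁.cmp y' hy' hy2
    have e3 : (⟨Φ' y', hy2⟩ : A'₁) = ⟨y', hy'⟩ := Subtype.ext hy
    rw [e3] at h7
    exact h7

end Pool.Agent.helper70.QSD
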